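import Pool.Agent.R19.Cube.Tab

/-!
Sets of natural numbers which are periodic modulo `2 ^ n` and contain no projective 3-cube have
density at most `5/8`.
-/

set_option autoImplicit false

namespace Pool.Agent.R19.Cube3

open Finset

/-- no projective 3-cube -/
def CF (p : ℕ → Bool) : Prop := ∀ a b c : ℕ, ¬ (p a = true ∧ p b = true ∧ p c = true ∧
  p (a + b) = true ∧ p (a + c) = true ∧ p (b + c) = true ∧ p (a + b + c) = true)

/-- the number of elements in a period -/
def cnt (M : ℕ) (p : ℕ → Bool) : ℕ := ∑ j ∈ range M, (p j).toNat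

lemma cnt_le (M : ℕ) (p : ℕ → Bool) : cnt M p ≤ M := by
  unfold cnt
  calc ∑ j ∈ range M, (p j).toNat ≤ ∑ j ∈ range M, 1 := sum_le_sum (fun j _ => Bool.toNat_le _)
    _ = M := by simp

lemma per_add_mul {M : ℕ} {p : ℕ → Bool} (hp : ∀ j, p (j + M) = p j) (j k : ℕ) :
    p (j + M * k) = p j := by
  induction k with
  | zero => simp
  | succ k ih => rw [Nat.mul_succ, ← add_assoc, hp, ih]

lemma per_mod {M : ℕ} {p : ℕ → Bool} (hp : ∀ j, p (j + M) = p j) (j : ℕ) : p (j % M) = p j := by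
  conv_rhs => rw [← Nat.mod_add_div j M]
  rw [per_add_mul hp]

lemma cnt_two (M : ℕ) (p : ℕ → Bool) :
    cnt (2 * M) p = cnt M (fun j => p (2 * j)) + cnt M (fun j => p (2 * j + 1)) := by
  unfold cnt
  induction M with
  | zero => simp
  | succ M ih =>
    rw [show 2 * (M + 1) = 2 * M + 1 + 1 by ring, sum_range_succ, sum_range_succ, ih,
      sum_range_succ, sum_range_succ]
    ring

lemma cnt_double {M : ℕ} {p : ℕ → Bool} (hp : ∀ j, p (j + M) = p j) :
    cnt (2 * M) p = 2 * cnt M p := by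
  unfold cnt
  rw [two_mul, sum_range_add, two_mul]
  congr 1
  apply sum_congr rfl
  intro j _
  rw [add_comm, hp]

lemma cnt_scale {M x : ℕ} {p : ℕ → Bool} (hM : 0 < M) (hx : Nat.Coprime M x)
    (hp : ∀ j, p (j + M) = p j) : cnt M (fun j => p (j * x)) = cnt M p := by
  unfold cnt
  have hinj : Set.InjOn (fun j => j * x % M) (range M : Set ℕ) := by
    intro i hi j hj hij
    simp only [coe_range, Set.mem_Iio] at hi hj
    have h : i * x ≡ j * x [MOD M] := hij
    have h2 : i ≡ j [MOD M] := Nat.ModEq.cancel_right_of_coprime hx h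
    exact Nat.ModEq.eq_of_lt_of_lt h2 hi hj
  have himg : (range M).image (fun j => j * x % M) = range M := by
    apply Finset.eq_of_subset_of_card_le
    · intro y hy
      simp only [mem_image, mem_range] at hy ⊢
      obtain ⟨j, _, rfl⟩ := hy
      exact Nat.mod_lt _ hM
    · rw [card_image_of_injOn hinj]
  conv_rhs => rw [← himg]
  rw [sum_image (fun i hi j hj h => hinj (by simpa using hi) (by simpa using hj) h)]
  apply sum_congr rfl
  intro j _
  rw [per_mod hp]

/-- odd multiples -/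
lemma odd_scale {M m : ℕ} {p : ℕ → Bool} (hM : ∃ n, M = 2 ^ n) (hm : m % 2 = 1)
    (hp : ∀ j, p (j + M) = p j) :
    cnt M (fun j => p (m * (2 * j + 1))) = cnt M (fun j => p (2 * j + 1)) := by
  obtain ⟨n, rfl⟩ := hM
  set q : ℕ → Bool := fun j => decide (j % 2 = 1) && p j with hq
  have hqp : ∀ j, q (j + 2 * 2 ^ n) = q j := by
    intro j
    simp only [hq]
    congr 1
    · congr 1
      rw [Nat.add_mul_mod_self_left]
    · rw [two_mul, ← add_assoc, hp, hp]
  have h1 : cnt (2 * 2 ^ n) (fun j => q (j * m)) = cnt (2 * 2 ^ n) q := by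
    apply cnt_scale (by positivity) _ hqp
    rw [show 2 * 2 ^ n = 2 ^ (n + 1) by ring]
    apply Nat.Coprime.pow_left
    rw [Nat.coprime_two_left]
    exact Nat.odd_iff.mpr hm
  rw [cnt_two, cnt_two] at h1
  have e1 : cnt (2 ^ n) (fun j => q (2 * j * m)) = 0 := by
    unfold cnt
    apply sum_eq_zero
    intro j _
    have : (2 * j * m) % 2 = 0 := by rw [mul_assoc]; exact Nat.mul_mod_right 2 _
    simp [hq, this]
  have e2 : cnt (2 ^ n) (fun j => q (2 * j)) = 0 := by
    unfold cnt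
    apply sum_eq_zero
    intro j _
    simp [hq]
  have e3 : ∀ j, q ((2 * j + 1) * m) = p (m * (2 * j + 1)) := by
    intro j
    have : ((2 * j + 1) * m) % 2 = 1 := by rw [Nat.mul_mod, hm]; omega
    simp only [hq, this, decide_true, Bool.true_and]
    rw [mul_comm]
  have e4 : ∀ j, q (2 * j + 1) = p (2 * j + 1) := by
    intro j
    have : (2 * j + 1) % 2 = 1 := by omega
    simp only [hq, this, decide_true, Bool.true_and]
  simp only [e1, e2, e3, e4, zero_add] at h1
  exact h1

/-! ### The weights -/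

/-- weighted number of elements; the list starts with the weight of the lowest bit -/
def wsumL : List ℕ → ℕ → ℕ
  | [], _ => 0
  | w :: ws, s => w * (s % 2) + wsumL ws (s / 2)

lemma wsumL_enc (w : ℕ) (ws : List ℕ) (b : ℕ → Bool) (j W : ℕ) :
    wsumL (w :: ws) (enc b j (W + 1)) = w * (b (j + W)).toNat + wsumL ws (enc b j W) := by
  simp only [wsumL, enc]
  have h : (b (j + W)).toNat ≤ 1 := Bool.toNat_le _
  congr 2
  · omega
  · omega

/-- the weights of 13, 12, ..., 1 -/
def wts : List ℕ := [19, 22, 14, 10, 49, 35, 37, 63, 22, 48, 63, 67, 76]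

/-- cubes which are used -/
def trips : List (ℕ × ℕ × ℕ) := [(1, 3, 9), (1, 5, 6), (1, 1, 5), (1, 1, 7), (1, 1, 9), (1, 1, 11),
  (1, 3, 3), (1, 5, 5), (1, 6, 6), (2, 2, 5), (2, 2, 9), (2, 5, 5), (3, 3, 5), (3, 3, 7),
  (3, 5, 5), (1, 1, 1), (2, 2, 2), (3, 3, 3), (4, 4, 4)]

/-- the elements of a cube -/
def cubeL (t : ℕ × ℕ × ℕ) : List ℕ :=
  [t.1, t.2.1, t.2.2, t.1 + t.2.1, t.1 + t.2.2, t.2.1 + t.2.2, t.1 + t.2.1 + t.2.2]

/-- the families -/
def fams : List (List ℕ) := [[1, 3, 5, 8, 11, 12, 13], [3, 4, 5, 7, 9, 12], [1, 3, 4, 5, 10],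
  [1, 4, 6, 7, 8, 9], [1, 3, 4, 7, 8], [1, 2, 6, 8]]

/-- the mask of a set of elements of `{1, ..., 13}` -/
def maskL : List ℕ → ℕ
  | [] => 0
  | t :: l => maskL l ||| 2 ^ (13 - t)

lemma maskL_bits (l : List ℕ) (t : ℕ) (ht : t ∈ l) : (maskL l).testBit (13 - t) = true := by
  induction l with
  | nil => simp at ht
  | cons a l ih =>
    simp only [maskL, Nat.testBit_or, Bool.or_eq_true]
    rcases List.mem_cons.mp ht with h | h
    · right; rw [h]; exact Nat.testBit_two_pow_self
    · left; exact ih h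

def allMasks : List ℕ := (trips.map cubeL ++ fams).map maskL

def chkW (ms ws : List ℕ) (C : ℕ) : ℕ → ℕ → Bool
  | 0, s => ms.any (fun m => Nat.beq (s &&& m) m) || Nat.ble (wsumL ws s) C
  | k + 1, lo => chkW ms ws C k (2 * lo) && chkW ms ws C k (2 * lo + 1)

lemma chkW_sound (ms ws : List ℕ) (C : ℕ) (k : ℕ) : ∀ lo : ℕ, chkW ms ws C k lo = true →
    ∀ s : ℕ, lo * 2 ^ k ≤ s → s < (lo + 1) * 2 ^ k →
      (∃ m ∈ ms, s &&& m = m) ∨ wsumL ws s ≤ C := by
  induction k with
  | zero =>
    intro lo h s h1 h2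
    have : s = lo := by simp at h1 h2; omega
    subst this
    simp only [chkW, Bool.or_eq_true, Nat.ble_eq, List.any_eq_true] at h
    rcases h with ⟨m, hm, h⟩ | h
    · left; exact ⟨m, hm, Nat.eq_of_beq_eq_true h⟩
    · right; exact h
  | succ k ih =>
    intro lo h s h1 h2
    simp only [chkW, Bool.and_eq_true] at h
    rw [pow_succ] at h1 h2
    rcases lt_or_ge s ((2 * lo + 1) * 2 ^ k) with h3 | h3
    · exact ih _ h.1 s (by nlinarith) h3
    · exact ih _ h.2 s h3 (by nlinarith)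

/-- the masks as numerals -/
def allMasksN : List ℕ := [5659, 4550, 6592, 6256, 6172, 6151, 5824, 4492, 4291, 2896, 2581, 2378, 1444, 1225, 1321, 7168, 2688, 1168, 546, 5415, 1874, 5896, 4848, 5728, 6304]

theorem allMasksN_eq : allMasksN = allMasks := by decide +kernel

theorem chkW_all : chkW allMasksN [19, 22, 14, 10, 49, 35, 37, 63, 22, 48, 63, 67, 76] 328 13 0
    = true := by decide +kernel

theorem weights (b : ℕ → Bool)
    (hc : ∀ t ∈ trips, ¬ ∀ k ∈ cubeL t, b k = true)
    (hf : ∀ l ∈ fams, ¬ ∀ k ∈ l, b k = true) :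
    19 * (b 13).toNat + 22 * (b 12).toNat + 14 * (b 11).toNat + 10 * (b 10).toNat +
      49 * (b 9).toNat + 35 * (b 8).toNat + 37 * (b 7).toNat + 63 * (b 6).toNat +
      22 * (b 5).toNat + 48 * (b 4).toNat + 63 * (b 3).toNat + 67 * (b 2).toNat +
      76 * (b 1).toNat ≤ 328 := by
  have hb : ∀ l : List ℕ, (∀ k ∈ l, 1 ≤ k ∧ k ≤ 13) → enc b 1 13 &&& maskL l = maskL l →
      ∀ k ∈ l, b k = true := by
    intro l hl h k hk
    have h1 := maskL_bits l k hk
    rw [← h, Nat.testBit_and, Bool.and_eq_true] at h1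
    have h2 := h1.1
    have h3 := hl k hk
    rw [show (13 : ℕ) = 12 + 1 from rfl, testBit_enc _ _ _ _ (by omega)] at h2
    rw [show 1 + (12 - (12 + 1 - k)) = k by omega] at h2
    exact h2
  have h := chkW_sound _ _ _ 13 0 chkW_all (enc b 1 13) (by simp)
    (by simpa using enc_lt b 1 13)
  rcases h with ⟨m, hm, h⟩ | h
  · exfalso
    rw [allMasksN_eq] at hm
    simp only [allMasks, List.map_append, List.mem_append, List.mem_map] at hm
    rcases hm with ⟨l, ⟨t, ht, rfl⟩, rfl⟩ | ⟨l, hl, rfl⟩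
    · refine hc t ht (hb _ ?_ h)
      have : ∀ t ∈ trips, ∀ k ∈ cubeL t, 1 ≤ k ∧ k ≤ 13 := by decide
      exact this t ht
    · refine hf l hl (hb _ ?_ h)
      have : ∀ l ∈ fams, ∀ k ∈ l, 1 ≤ k ∧ k ≤ 13 := by decide
      exact this l hl
  · rw [wsumL_enc, wsumL_enc, wsumL_enc, wsumL_enc, wsumL_enc, wsumL_enc, wsumL_enc, wsumL_enc,
      wsumL_enc, wsumL_enc, wsumL_enc, wsumL_enc, wsumL_enc] at h
    simp only [wsumL] at h
    norm_num at h ⊢
    omega

/-- one of the families excludes density more than `5/8` -/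
theorem fam_bound (M : ℕ) (p : ℕ → Bool) (hp : ∀ j, p (j + M) = p j) (hc : CF p)
    (l : List ℕ) (hl : l ∈ fams) (x : ℕ) (hx : ∀ k ∈ l, p (k * x) = true) :
    8 * cnt M (fun j => p (j * x)) ≤ 5 * M := by
  have hper : ∀ j, (fun j => p (j * x)) (j + M) = (fun j => p (j * x)) j := by
    intro j
    simp only []
    rw [add_mul]
    exact per_add_mul hp _ _
  have av : ∀ a b : ℕ, p (a * x) = true → p (b * x) = true → p ((a + b) * x) = true →
      ∀ j, ¬ ((fun j => p (j * x)) j = true ∧ (fun j => p (j * x)) (j + a) = true ∧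
        (fun j => p (j * x)) (j + b) = true ∧ (fun j => p (j * x)) (j + a + b) = true) := by
    intro a b h1 h2 h3 j h
    simp only [] at h
    obtain ⟨g1, g2, g3, g4⟩ := h
    refine hc (j * x) (a * x) (b * x) ⟨g1, h1, h2, ?_, ?_, ?_, ?_⟩
    · rw [← add_mul]; exact g2
    · rw [← add_mul]; exact g3
    · rw [← add_mul]; exact h3
    · rw [← add_mul, ← add_mul]; exact g4
  simp only [fams, List.mem_cons, List.not_mem_nil, or_false] at hl
  rcases hl with rfl | rfl | rfl | rfl | rfl | rfl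
  · refine pot_bound T1 13 8192 L1 _ (by norm_num) L_1 (by decide) chk_1 _ M hper ?_
    intro q hq
    simp only [List.mem_cons, List.not_mem_nil, or_false] at hq
    rcases hq with rfl | rfl | rfl
    · exact av _ _ (hx _ (by simp)) (hx _ (by simp)) (hx _ (by simp))
    · exact av _ _ (hx _ (by simp)) (hx _ (by simp)) (hx _ (by simp))
    · exact av _ _ (hx _ (by simp)) (hx _ (by simp)) (hx _ (by simp))
  · refine pot_bound T2 12 4096 L2 _ (by norm_num) L_2 (by decide) chk_2 _ M hper ?_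
    intro q hq
    simp only [List.mem_cons, List.not_mem_nil, or_false] at hq
    rcases hq with rfl | rfl | rfl
    · exact av _ _ (hx _ (by simp)) (hx _ (by simp)) (hx _ (by simp))
    · exact av _ _ (hx _ (by simp)) (hx _ (by simp)) (hx _ (by simp))
    · exact av _ _ (hx _ (by simp)) (hx _ (by simp)) (hx _ (by simp))
  · refine pot_bound T3 10 1024 L3 _ (by norm_num) L_3 (by decide) chk_3 _ M hper ?_
    intro q hq
    simp only [List.mem_cons, List.not_mem_nil, or_false] at hq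
    rcases hq with rfl | rfl
    · exact av _ _ (hx _ (by simp)) (hx _ (by simp)) (hx _ (by simp))
    · exact av _ _ (hx _ (by simp)) (hx _ (by simp)) (hx _ (by simp))
  · refine pot_bound T4 9 512 L4 _ (by norm_num) L_4 (by decide) chk_4 _ M hper ?_
    intro q hq
    simp only [List.mem_cons, List.not_mem_nil, or_false] at hq
    rcases hq with rfl | rfl | rfl
    · exact av _ _ (hx _ (by simp)) (hx _ (by simp)) (hx _ (by simp))
    · exact av _ _ (hx _ (by simp)) (hx _ (by simp)) (hx _ (by simp))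
    · exact av _ _ (hx _ (by simp)) (hx _ (by simp)) (hx _ (by simp))
  · refine pot_bound T5 8 256 L5 _ (by norm_num) L_5 (by decide) chk_5 _ M hper ?_
    intro q hq
    simp only [List.mem_cons, List.not_mem_nil, or_false] at hq
    rcases hq with rfl | rfl | rfl
    · exact av _ _ (hx _ (by simp)) (hx _ (by simp)) (hx _ (by simp))
    · exact av _ _ (hx _ (by simp)) (hx _ (by simp)) (hx _ (by simp))
    · exact av _ _ (hx _ (by simp)) (hx _ (by simp)) (hx _ (by simp))
  · refine pot_bound T6 8 256 L6 _ (by norm_num) L_6 (by decide) chk_6 _ M hper ?_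
    intro q hq
    simp only [List.mem_cons, List.not_mem_nil, or_false] at hq
    rcases hq with rfl | rfl
    · exact av _ _ (hx _ (by simp)) (hx _ (by simp)) (hx _ (by simp))
    · exact av _ _ (hx _ (by simp)) (hx _ (by simp)) (hx _ (by simp))

/-- the odd part of the count -/
lemma odd_count {M : ℕ} {q : ℕ → Bool} (hq : ∀ j, q (j + M) = q j) :
    cnt M (fun j => q (2 * j + 1)) + cnt M (fun j => q (2 * j)) = 2 * cnt M q := by
  rw [← cnt_double hq, cnt_two]; ring

theorem key (n : ℕ) (p : ℕ → Bool) (hp : ∀ j, p (j + 2 ^ n) = p j) (hc : CF p)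
    (hd : 5 * 2 ^ n < 8 * cnt (2 ^ n) p) :
    560 * cnt (2 ^ n) p ≤ 328 * 2 ^ n + 35 * cnt (2 ^ n) (fun j => p (16 * j)) := by
  have hW : ∀ j, 19 * (p (13 * (2 * j + 1))).toNat + 22 * (p (12 * (2 * j + 1))).toNat +
      14 * (p (11 * (2 * j + 1))).toNat + 10 * (p (10 * (2 * j + 1))).toNat +
      49 * (p (9 * (2 * j + 1))).toNat + 35 * (p (8 * (2 * j + 1))).toNat +
      37 * (p (7 * (2 * j + 1))).toNat + 63 * (p (6 * (2 * j + 1))).toNat +
      22 * (p (5 * (2 * j + 1))).toNat + 48 * (p (4 * (2 * j + 1))).toNat +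
      63 * (p (3 * (2 * j + 1))).toNat + 67 * (p (2 * (2 * j + 1))).toNat +
      76 * (p (1 * (2 * j + 1))).toNat ≤ 328 := by
    intro j
    refine weights (fun k => p (k * (2 * j + 1))) ?_ ?_
    · rintro ⟨a, b, c⟩ _ h
      simp only [cubeL, List.mem_cons, List.not_mem_nil, or_false, forall_eq_or_imp,
        forall_eq] at h
      obtain ⟨h1, h2, h3, h4, h5, h6, h7⟩ := h
      refine hc (a * (2 * j + 1)) (b * (2 * j + 1)) (c * (2 * j + 1)) ⟨h1, h2, h3, ?_, ?_, ?_, ?_⟩
      · rw [← add_mul]; exact h4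
      · rw [← add_mul]; exact h5
      · rw [← add_mul]; exact h6
      · rw [← add_mul, ← add_mul]; exact h7
    · intro l hl h
      have h1 := fam_bound (2 ^ n) p hp hc l hl (2 * j + 1) h
      rw [cnt_scale (by positivity) _ hp] at h1
      · omega
      · apply Nat.Coprime.pow_left
        rw [Nat.coprime_two_left]
        exact ⟨j, rfl⟩
  have hsum := sum_le_sum (fun j (_ : j ∈ range (2 ^ n)) => hW j)
  simp only [sum_add_distrib, ← mul_sum] at hsum
  simp only [sum_const, card_range, smul_eq_mul] at hsum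
  -- periodicity of the dilates
  have hpk : ∀ k j, (fun j => p (k * j)) (j + 2 ^ n) = (fun j => p (k * j)) j := by
    intro k j
    simp only []
    rw [mul_add, mul_comm k (2 ^ n)]
    exact per_add_mul hp _ _
  have hM : ∃ m, 2 ^ n = 2 ^ m := ⟨n, rfl⟩
  have od : ∀ v m, m % 2 = 1 → ∑ j ∈ range (2 ^ n), (p (v * m * (2 * j + 1))).toNat
      = cnt (2 ^ n) (fun j => p (v * (2 * j + 1))) := by
    intro v m hm
    have h := odd_scale (p := fun j => p (v * j)) hM hm (hpk v)
    rw [← h]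
    unfold cnt
    simp only [mul_assoc]
  have o13 := od 1 13 rfl
  have o11 := od 1 11 rfl
  have o9 := od 1 9 rfl
  have o7 := od 1 7 rfl
  have o5 := od 1 5 rfl
  have o3 := od 1 3 rfl
  have o1 := od 1 1 rfl
  have o12 := od 4 3 rfl
  have o4 := od 4 1 rfl
  have o10 := od 2 5 rfl
  have o6 := od 2 3 rfl
  have o2 := od 2 1 rfl
  have o8 := od 8 1 rfl
  norm_num only at o13 o11 o9 o7 o5 o3 o1 o12 o4 o10 o6 o2 o8
  have c0 := odd_count hp
  have c1 := odd_count (q := fun j => p (2 * j)) (hpk 2)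
  have c2 := odd_count (q := fun j => p (4 * j)) (hpk 4)
  have c3 := odd_count (q := fun j => p (8 * j)) (hpk 8)
  have e1 : (fun j => p (1 * (2 * j + 1))) = (fun j => p (2 * j + 1)) := by
    funext j; rw [one_mul]
  have e2 : (fun j => p (2 * (2 * j))) = (fun j => p (4 * j)) := by
    funext j; congr 1; ring
  have e3 : (fun j => p (4 * (2 * j))) = (fun j => p (8 * j)) := by
    funext j; congr 1; ring
  have e4 : (fun j => p (8 * (2 * j))) = (fun j => p (16 * j)) := by
    funext j; congr 1; ring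
  simp only [e1, e2, e3, e4] at *
  omega

/-- the dilate by 16 -/
def sc (p : ℕ → Bool) : ℕ → Bool := fun j => p (16 * j)

/-- **The density bound.** -/
theorem bound (n : ℕ) (p : ℕ → Bool) (hp : ∀ j, p (j + 2 ^ n) = p j) (hc : CF p) :
    8 * cnt (2 ^ n) p ≤ 5 * 2 ^ n := by
  by_contra hcon
  push Not at hcon
  have hp' : ∀ q : ℕ → Bool, (∀ j, q (j + 2 ^ n) = q j) → ∀ j, sc q (j + 2 ^ n) = sc q j := by
    intro q hq j
    unfold sc
    rw [mul_add, mul_comm 16 (2 ^ n)]
    exact per_add_mul hq _ _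
  have hc' : ∀ q : ℕ → Bool, CF q → CF (sc q) := by
    intro q hq a b c h
    simp only [sc, mul_add] at h
    exact hq _ _ _ h
  have k1 : 560 * cnt (2 ^ n) p ≤ 328 * 2 ^ n + 35 * cnt (2 ^ n) (sc p) := key n p hp hc hcon
  have k2 : 560 * cnt (2 ^ n) (sc p) ≤ 328 * 2 ^ n + 35 * cnt (2 ^ n) (sc (sc p)) :=
    key n (sc p) (hp' _ hp) (hc' _ hc) (by omega)
  have k3 : 560 * cnt (2 ^ n) (sc (sc p)) ≤ 328 * 2 ^ n + 35 * cnt (2 ^ n) (sc (sc (sc p))) :=
    key n (sc (sc p)) (hp' _ (hp' _ hp)) (hc' _ (hc' _ hc)) (by omega)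
  have k4 := cnt_le (2 ^ n) (sc (sc (sc p)))
  have : 0 < 2 ^ n := by positivity
  omega

end Pool.Agent.R19.Cube3
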