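import Mathlib

/-!
Potential functions for pattern avoiding periodic binary sequences.

A periodic sequence of bits which contains no four ones in the positions `j, j+a, j+b, j+a+b`
(for the pairs `(a,b)` of a given list) has density of ones at most `5/8`, if there is a table of
potentials which passes the check `chkAll`.
-/

set_option autoImplicit false

namespace Pool.Agent.R19.Cube3

/-- table lookup, five bits per entry -/
def look (T s : ℕ) : ℕ := (T >>> (5 * s)) &&& 31

/-- the window of length `W` of the sequence `b` which starts at `j`; the newest bit is the lowest -/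
def enc (b : ℕ → Bool) (j : ℕ) : ℕ → ℕ
  | 0 => 0
  | W + 1 => 2 * enc b j W + (b (j + W)).toNat

lemma enc_lt (b : ℕ → Bool) (j W : ℕ) : enc b j W < 2 ^ W := by
  induction W with
  | zero => simp [enc]
  | succ W ih =>
    simp only [enc]
    have : (b (j + W)).toNat ≤ 1 := Bool.toNat_le _
    rw [pow_succ]; omega

lemma enc_succ' (b : ℕ → Bool) (j W : ℕ) :
    enc b j (W + 1) = (b j).toNat * 2 ^ W + enc b (j + 1) W := by
  induction W with
  | zero => simp [enc]
  | succ W ih =>
    rw [enc, ih]
    conv_rhs => rw [enc]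
    rw [show j + (W + 1) = j + 1 + W by ring]
    ring

lemma enc_mod (b : ℕ → Bool) (j W : ℕ) : enc b (j + 1) W = enc b j (W + 1) % 2 ^ W := by
  rw [enc_succ']
  rw [Nat.add_comm ((b j).toNat * 2 ^ W), Nat.add_mul_mod_self_right, Nat.mod_eq_of_lt (enc_lt _ _ _)]

lemma testBit_enc (b : ℕ → Bool) (j W i : ℕ) (hi : i ≤ W) :
    (enc b j (W + 1)).testBit i = b (j + (W - i)) := by
  induction i generalizing W with
  | zero =>
    simp only [enc, Nat.testBit_zero, Nat.sub_zero]
    cases h : b (j + W) <;> simp
  | succ i ih =>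
    obtain ⟨W', rfl⟩ : ∃ W', W = W' + 1 := ⟨W - 1, by omega⟩
    have e : enc b j (W' + 1 + 1) / 2 = enc b j (W' + 1) := by
      rw [enc]
      have : (b (j + (W' + 1))).toNat ≤ 1 := Bool.toNat_le _
      omega
    rw [Nat.testBit_succ, e, ih W' (by omega)]
    congr 2
    omega

/-- the mask of the pattern `0, a, b, a + b` -/
def mask (p : ℕ × ℕ) : ℕ := 1 ||| 2 ^ p.1 ||| 2 ^ p.2 ||| 2 ^ (p.1 + p.2)

lemma mask_bits (p : ℕ × ℕ) (w : ℕ) (h : w &&& mask p = mask p) :
    w.testBit 0 = true ∧ w.testBit p.1 = true ∧ w.testBit p.2 = true ∧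
      w.testBit (p.1 + p.2) = true := by
  have key : ∀ i, (mask p).testBit i = true → w.testBit i = true := by
    intro i hi
    rw [← h, Nat.testBit_and] at hi
    simp only [Bool.and_eq_true] at hi
    exact hi.1
  refine ⟨key _ ?_, key _ ?_, key _ ?_, key _ ?_⟩ <;>
  simp [mask, Nat.testBit_or, Nat.testBit_two_pow_self]

/-- the check at one state -/
def chk1 (T P : ℕ) (ms : List ℕ) (s : ℕ) : Bool :=
  Nat.ble (look T ((2 * s) % P)) (look T s + 5) &&
    (ms.any (fun m => Nat.beq ((2 * s + 1) &&& m) m) ||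
      Nat.ble (look T ((2 * s + 1) % P) + 3) (look T s))

/-- the check for all states in `[lo * 2 ^ k, (lo + 1) * 2 ^ k)` -/
def chkAll (T P : ℕ) (ms : List ℕ) : ℕ → ℕ → Bool
  | 0, lo => chk1 T P ms lo
  | k + 1, lo => chkAll T P ms k (2 * lo) && chkAll T P ms k (2 * lo + 1)

lemma chkAll_sound (T P : ℕ) (ms : List ℕ) (k : ℕ) : ∀ lo : ℕ, chkAll T P ms k lo = true →
    ∀ s : ℕ, lo * 2 ^ k ≤ s → s < (lo + 1) * 2 ^ k → chk1 T P ms s = true := by
  induction k with
  | zero =>
    intro lo h s h1 h2
    have : s = lo := by simp at h1 h2; omega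
    subst this; exact h
  | succ k ih =>
    intro lo h s h1 h2
    simp only [chkAll, Bool.and_eq_true] at h
    rw [pow_succ] at h1 h2
    rcases lt_or_ge s ((2 * lo + 1) * 2 ^ k) with h3 | h3
    · exact ih _ h.1 s (by nlinarith) h3
    · exact ih _ h.2 s h3 (by nlinarith)

theorem pot_bound (T W P : ℕ) (ms : List ℕ) (pairs : List (ℕ × ℕ)) (hP : P = 2 ^ W)
    (hms : ms = pairs.map mask) (hW : ∀ p ∈ pairs, p.1 + p.2 ≤ W)
    (hchk : chkAll T P ms W 0 = true) (b : ℕ → Bool) (N : ℕ) (hper : ∀ j, b (j + N) = b j)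
    (hav : ∀ p ∈ pairs, ∀ j, ¬ (b j = true ∧ b (j + p.1) = true ∧ b (j + p.2) = true ∧
      b (j + p.1 + p.2) = true)) :
    8 * ∑ j ∈ Finset.range N, (b j).toNat ≤ 5 * N := by
  subst hP hms
  have step : ∀ j, look T (enc b (j + 1) W) + 8 * (b (j + W)).toNat ≤ look T (enc b j W) + 5 := by
    intro j
    have h := chkAll_sound T (2 ^ W) _ W 0 hchk (enc b j W) (by simp) (by simpa using enc_lt b j W)
    simp only [chk1, Bool.and_eq_true, Bool.or_eq_true, Nat.ble_eq, List.any_eq_true,
      List.mem_map] at h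
    rw [enc_mod]
    cases hb : b (j + W) with
    | false =>
      have e : enc b j (W + 1) = 2 * enc b j W := by simp [enc, hb]
      rw [e]; simpa using h.1
    | true =>
      have e : enc b j (W + 1) = 2 * enc b j W + 1 := by simp [enc, hb]
      rcases h.2 with h2 | h2
      · exfalso
        obtain ⟨m, ⟨p, hp, rfl⟩, hm⟩ := h2
        have hm' : (2 * enc b j W + 1) &&& mask p = mask p := Nat.eq_of_beq_eq_true hm
        rw [← e] at hm'
        obtain ⟨h0, h1, h2, h3⟩ := mask_bits p _ hm'
        have hw := hW p hp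
        rw [testBit_enc _ _ _ _ (by omega)] at h0 h1 h2 h3
        refine hav p hp (j + (W - (p.1 + p.2))) ⟨h3, ?_, ?_, ?_⟩
        · rw [show j + (W - (p.1 + p.2)) + p.1 = j + (W - p.2) by omega]; exact h2
        · rw [show j + (W - (p.1 + p.2)) + p.2 = j + (W - p.1) by omega]; exact h1
        · rw [show j + (W - (p.1 + p.2)) + p.1 + p.2 = j + (W - 0) by omega]; exact h0
      · rw [e]; simp only [Bool.toNat_true]; omega
  have tel : ∀ n, look T (enc b n W) + 8 * ∑ j ∈ Finset.range n, (b (j + W)).toNat
      ≤ look T (enc b 0 W) + 5 * n := by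
    intro n
    induction n with
    | zero => simp
    | succ n ih =>
      rw [Finset.sum_range_succ]
      have := step n
      omega
  have hN := tel N
  have e1 : ∀ W, enc b N W = enc b 0 W := by
    intro W
    induction W with
    | zero => rfl
    | succ W ih => simp only [enc, ih]; rw [show N + W = W + N by ring, hper, zero_add]
  have e2 : ∀ W, ∑ j ∈ Finset.range N, (b (j + W)).toNat = ∑ j ∈ Finset.range N, (b j).toNat := by
    intro W
    induction W with
    | zero => simp
    | succ W ih =>
      rw [← ih]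
      have h1 := Finset.sum_range_succ (fun j => (b (j + W)).toNat) N
      have h2 := Finset.sum_range_succ' (fun j => (b (j + W)).toNat) N
      rw [h1] at h2
      have h3 : b (N + W) = b (0 + W) := by rw [show N + W = W + N by ring, hper, zero_add]
      rw [h3] at h2
      have h4 : ∑ j ∈ Finset.range N, (b (j + (W + 1))).toNat
          = ∑ k ∈ Finset.range N, (b (k + 1 + W)).toNat := by
        apply Finset.sum_congr rfl
        intro j _
        rw [show j + (W + 1) = j + 1 + W by ring]
      rw [h4]
      omega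
  rw [e1, e2] at hN
  omega

end Pool.Agent.R19.Cube3
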